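import Pool.Agent.N300.UN.Stubs

/-! Project UN (MP_401a3a_an), tasks LAWM and CUT. -/

set_option autoImplicit false

open scoped ComplexConjugate

noncomputable section

namespace Pool.Agent.N547.UN

open Pool.Agent.H923R2.FP Pool.Agent.H923R2.FZ Pool.Agent.N300.UN

/-! ### LAWM -/

lemma norm_poly' {B : Type} [CStarAlgebra B] {x : B} (hx : star x = x) {F : ℝ → ℝ}
    (hF : Continuous F) (q : Polynomial ℝ) {r ε : ℝ} (hr : ‖x‖ ≤ r) (hε : 0 ≤ ε)
    (h : ∀ t ∈ Set.Icc (-r) r, |q.eval t - F t| < ε) :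
    ‖cfc F x - Polynomial.aeval x q‖ ≤ ε := by
  have hsa : IsSelfAdjoint x := hx
  rw [← cfc_polynomial q x hsa, ← cfc_sub F q.eval x hF.continuousOn q.continuous.continuousOn]
  apply norm_cfc_le hε
  intro t ht
  rw [Real.norm_eq_abs, abs_sub_comm]
  refine (h t ?_).le
  rcases subsingleton_or_nontrivial B with hB | hB
  · exfalso
    have : spectrum ℝ x = ∅ := spectrum.of_subsingleton x
    rw [this] at ht
    exact ht
  · have h1 : ‖t‖ ≤ ‖x‖ := spectrum.norm_le_norm_of_mem ht
    rw [Real.norm_eq_abs] at h1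
    exact abs_le.1 (h1.trans hr)

lemma tau_poly {B : Type} [CStarAlgebra B] (τ : B →ₗ[ℂ] ℂ) (x : B) (p : Polynomial ℝ) :
    τ (Polynomial.aeval x p) = p.sum fun n a => (a : ℂ) * τ (x ^ n) := by
  rw [Polynomial.aeval_eq_sum_range, Polynomial.sum_over_range, map_sum]
  · refine Finset.sum_congr rfl fun n _ => ?_
    rw [← Complex.coe_smul, map_smul, smul_eq_mul]
  · intro n
    simp

theorem t_LAWM : S_LAWM := by
  intro A B _ _ τ τ' hτ hτ' x y hx hy hm G hG
  have hp : ∀ p : Polynomial ℝ, τ (Polynomial.aeval x p) = τ' (Polynomial.aeval y p) := by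
    intro p
    rw [tau_poly, tau_poly]
    simp only [hm]
  by_contra hne
  have hd : 0 < ‖τ (cfc G x) - τ' (cfc G y)‖ := norm_pos_iff.2 (sub_ne_zero.2 hne)
  obtain ⟨D, hD⟩ : ∃ D, D = ‖τ (cfc G x) - τ' (cfc G y)‖ := ⟨_, rfl⟩
  rw [← hD] at hd
  obtain ⟨p, hp'⟩ := exists_polynomial_near_of_continuousOn (-(max ‖x‖ ‖y‖)) (max ‖x‖ ‖y‖) G
    hG.continuousOn (D / 4) (by positivity)
  have h1 := norm_poly' hx hG p (le_max_left ‖x‖ ‖y‖) (by positivity : 0 ≤ D / 4) hp'
  have h2 := norm_poly' hy hG p (le_max_right ‖x‖ ‖y‖) (by positivity : 0 ≤ D / 4) hp'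
  have h3 : ‖τ (cfc G x) - τ (Polynomial.aeval x p)‖ ≤ D / 4 := by
    rw [← map_sub]; exact (hτ.bound _).trans h1
  have h4 : ‖τ' (cfc G y) - τ' (Polynomial.aeval y p)‖ ≤ D / 4 := by
    rw [← map_sub]; exact (hτ'.bound _).trans h2
  have h5 : τ (cfc G x) - τ' (cfc G y) = (τ (cfc G x) - τ (Polynomial.aeval x p)) -
      (τ' (cfc G y) - τ' (Polynomial.aeval y p)) := by
    rw [hp p]; ring
  have h6 : D ≤ D / 4 + D / 4 := by
    calc D = ‖τ (cfc G x) - τ' (cfc G y)‖ := hD
      _ ≤ _ := by rw [h5]; exact (norm_sub_le _ _).trans (add_le_add h3 h4)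
  linarith

/-! ### CUT -/

lemma kp_cont (e : ℝ) (r : ℕ) : Continuous (kp e r) := by
  unfold kp
  fun_prop

lemma kp_nonneg (e : ℝ) (r : ℕ) (t : ℝ) : 0 ≤ kp e r t := le_max_left _ _

lemma kp_le_one (e : ℝ) (r : ℕ) (t : ℝ) : kp e r t ≤ 1 :=
  max_le zero_le_one (min_le_left _ _)

lemma kp_zero {e : ℝ} (he : 0 < e) (r : ℕ) {t : ℝ} (ht : ((r : ℝ) + 1) * e ≤ t) :
    kp e r t = 0 := by
  unfold kp
  apply max_eq_left
  refine (min_le_right _ _).trans ?_
  have : (r : ℝ) + 1 ≤ t / e := (le_div_iff₀ he).2 ht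
  linarith

/-- the functional calculus, as a function of the C*-algebra only -/
def CF {A : Type} [CStarAlgebra A] (F : ℝ → ℝ) (x : A) : A := cfc F x

lemma map_CF {A B : Type} [CStarAlgebra A] [CStarAlgebra B] (π : A →⋆ₐ[ℂ] B) (F : ℝ → ℝ)
    (hF : Continuous F) (x : A) (hx : star x = x) : π (CF F x) = cfc F (π x) := by
  have hc : Continuous π := by
    refine AddMonoidHomClass.continuous_of_bound π 1 fun x => ?_
    rw [one_mul]
    exact NonUnitalStarAlgHom.norm_apply_le π x
  have h := StarAlgHom.map_cfc π F x (hF.continuousOn) hc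
    (show IsSelfAdjoint x from hx) (show IsSelfAdjoint (π x) from by
      show star (π x) = π x
      rw [← map_star, hx])
  exact h

/-- evaluation at a point -/
def ev (t : unitInterval) : C(unitInterval, ℂ) →⋆ₐ[ℂ] ℂ where
  toFun f := f t
  map_one' := rfl
  map_mul' _ _ := rfl
  map_zero' := rfl
  map_add' _ _ := rfl
  commutes' _ := rfl
  map_star' _ := rfl

lemma ev_apply (t : unitInterval) (f : C(unitInterval, ℂ)) : ev t f = f t := rfl

lemma sa_sq (φ : C(unitInterval, ℝ)) : star (cx φ * cx φ) = cx φ * cx φ := by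
  ext t
  simp [cx]

/-- the function `F (φ ^ 2)` -/
def CS (F : ℝ → ℝ) (φ : C(unitInterval, ℝ)) : C(unitInterval, ℂ) :=
  CF (A := C(unitInterval, ℂ)) F (cx φ * cx φ)

lemma cfc_at (φ : C(unitInterval, ℝ)) {F : ℝ → ℝ} (hF : Continuous F) (t : unitInterval) :
    CS F φ t = (F (φ t * φ t) : ℂ) := by
  have h : ev t (CS F φ) = cfc F (ev t (cx φ * cx φ)) :=
    map_CF (A := C(unitInterval, ℂ)) (ev t) F hF (cx φ * cx φ) (sa_sq φ)
  have hval : ev t (cx φ * cx φ) = algebraMap ℝ ℂ (φ t * φ t) := by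
    rw [map_mul, ev_apply]
    simp [cx]
  rw [← ev_apply, h, hval, cfc_algebraMap]
  rfl

lemma g_at {B : Type} [CStarAlgebra B] (g : C(unitInterval, ℂ) →⋆ₐ[ℂ] B)
    (φ : C(unitInterval, ℝ)) {F : ℝ → ℝ} (hF : Continuous F) :
    cfc F (g (cx φ) * g (cx φ)) = g (CS F φ) := by
  rw [← map_mul]
  exact (map_CF (A := C(unitInterval, ℂ)) g F hF (cx φ * cx φ) (sa_sq φ)).symm

theorem t_CUT : S_CUT := by
  intro φ hφ ε hε
  -- the sets where `φ ^ 2 < 5 e`
  let s : ℕ → Set unitInterval := fun k => {x | φ x * φ x < 5 * (1 / ((k : ℝ) + 1))}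
  have hs : ∀ k, MeasurableSet (s k) := fun k =>
    (isOpen_lt (by fun_prop) continuous_const).measurableSet
  have hanti : Antitone s := by
    intro a b hab x hx
    have : 1 / ((b : ℝ) + 1) ≤ 1 / ((a : ℝ) + 1) := by
      apply one_div_le_one_div_of_le (by positivity)
      have : (a : ℝ) ≤ b := by exact_mod_cast hab
      linarith
    simp only [s, Set.mem_ofPred_eq] at hx ⊢
    linarith
  have hinter : (⋂ k, s k) ⊆ {x | φ x = 0} := by
    intro x hx
    simp only [Set.mem_iInter] at hx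
    by_contra hne
    have h0 : 0 < φ x * φ x := by
      have : φ x ≠ 0 := hne
      exact mul_self_pos.2 this
    obtain ⟨n, hn⟩ := exists_nat_one_div_lt (by positivity : 0 < φ x * φ x / 5)
    have := hx n
    simp only [s, Set.mem_ofPred_eq] at this
    linarith
  have hzero : MeasureTheory.volume (⋂ k, s k) = 0 := by
    refine MeasureTheory.measure_mono_null hinter ?_
    have hsub : ({x | φ x = 0} : Set unitInterval).Subsingleton := by
      intro x hx y hy
      apply hφ
      have h1 : φ x = 0 := hx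
      have h2 : φ y = 0 := hy
      rw [h1, h2]
    exact hsub.measure_zero _
  have hlim := MeasureTheory.tendsto_measure_iInter_atTop
    (μ := (MeasureTheory.volume : MeasureTheory.Measure unitInterval))
    (fun k => (hs k).nullMeasurableSet) hanti ⟨0, MeasureTheory.measure_ne_top _ _⟩
  rw [hzero] at hlim
  have hev := (ENNReal.tendsto_nhds_zero.1 hlim) (ENNReal.ofReal (ε / 2)) (by positivity)
  obtain ⟨k, hk⟩ := hev.exists
  refine ⟨1 / ((k : ℝ) + 1), by positivity, ?_⟩
  intro B _ τ g hg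
  set e : ℝ := 1 / ((k : ℝ) + 1) with he
  have he0 : 0 < e := by positivity
  have hF := kp_cont e 4
  rw [g_at g φ hF, hg]
  unfold leb
  have h1 : (∫ x : unitInterval, CS (kp e 4) φ x) =
      ((∫ x : unitInterval, kp e 4 (φ x * φ x) : ℝ) : ℂ) := by
    rw [← integral_complex_ofReal]
    congr 1
    funext x
    exact cfc_at φ hF x
  rw [h1, Complex.ofReal_re]
  have hint : MeasureTheory.Integrable (fun x : unitInterval => kp e 4 (φ x * φ x)) :=
    (Continuous.integrable_of_hasCompactSupport (by fun_prop)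
      (HasCompactSupport.of_compactSpace _))
  have h2 : (∫ x : unitInterval, kp e 4 (φ x * φ x)) ≤
      ∫ x : unitInterval, (s k).indicator (fun _ => (1 : ℝ)) x := by
    apply MeasureTheory.integral_mono hint
    · exact (MeasureTheory.integrable_const (1 : ℝ)).indicator (hs k)
    · intro x
      by_cases hx : x ∈ s k
      · rw [Set.indicator_of_mem hx]
        exact kp_le_one _ _ _
      · rw [Set.indicator_of_notMem hx]
        refine (kp_zero he0 4 ?_).le
        simp only [s, Set.mem_ofPred_eq, not_lt] at hx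
        push_cast
        linarith
  have h3 : (∫ x : unitInterval, (s k).indicator (fun _ => (1 : ℝ)) x) =
      (MeasureTheory.volume (s k)).toReal := by
    rw [MeasureTheory.integral_indicator (hs k)]
    simp [MeasureTheory.Measure.real]
  have h4 : (MeasureTheory.volume (s k)).toReal ≤ ε / 2 :=
    ENNReal.toReal_le_of_le_ofReal (by positivity) hk
  linarith

end Pool.Agent.N547.UN
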